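import Pool.Agent.Y24.F2
import Pool.Agent.TH803.UC.Dens
import Pool.Agent.H370R2.DirGood

set_option autoImplicit false

/-! The exponential moment of the distances of the zeros from the critical line is bounded (from the density theorem
`Pool.Agent.Y24.density`). -/

namespace Pool.Agent.V8H36.SW

open Filter Topology MeasureTheory Complex H370

noncomputable section

/-- reflection in the critical line -/
def rfl' (s : ℂ) : ℂ := 1 - (starRingEnd ℂ) s

lemma rfl'_re (s : ℂ) : (rfl' s).re = 1 - s.re := by simp [rfl']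
lemma rfl'_im (s : ℂ) : (rfl' s).im = s.im := by simp [rfl']
lemma rfl'_rfl' (s : ℂ) : rfl' (rfl' s) = s := by simp [rfl']

lemma rfl'_mult {s : ℂ} (h0 : 0 < s.re) (h1 : s.re < 1) (h2 : 1 ≤ s.im) :
    mult riemannZeta (rfl' s) = mult riemannZeta s := by
  unfold mult analyticOrderNatAt rfl'
  rw [good_zeta.symm s h0 h1 h2]

lemma mem_zset_iff {s : ℂ} {A B : ℝ} : s ∈ zset riemannZeta A B ↔
    0 < s.re ∧ s.re < 1 ∧ A < s.im ∧ s.im ≤ B ∧ riemannZeta s = 0 := Iff.rfl

lemma rfl'_zero {s : ℂ} (h0 : 0 < s.re) (h1 : s.re < 1) (h2 : 1 ≤ s.im) (h : riemannZeta s = 0) :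
    riemannZeta (rfl' s) = 0 := by
  have ha : AnalyticAt ℂ riemannZeta s := good_zeta.an s (by linarith)
  have hb : AnalyticAt ℂ riemannZeta (rfl' s) := good_zeta.an _ (by rw [rfl'_im]; linarith)
  have h3 : analyticOrderAt riemannZeta s ≠ 0 := ha.analyticOrderAt_ne_zero.2 h
  have h4 : analyticOrderAt riemannZeta (rfl' s) ≠ 0 := by
    rw [rfl', good_zeta.symm s h0 h1 h2]; exact h3
  exact hb.analyticOrderAt_ne_zero.1 h4

theorem dens_zeta : TH803UC.Dens riemannZeta := by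
  classical
  obtain ⟨C, hC, h⟩ := Pool.Agent.Y24.density (c := 1) (by norm_num)
  set q : ℝ := Real.exp (-(1 / 2)) with hq
  have hq0 : 0 < q := Real.exp_pos _
  have hq1 : q < 1 := by rw [hq, Real.exp_lt_one_iff]; norm_num
  refine ⟨1 / 2, 2 * (C * 4 * Real.exp (1 / 2) * (1 - q)⁻¹), 10, by norm_num, by
    have : 0 < (1 - q)⁻¹ := inv_pos.2 (by linarith)
    positivity, le_rfl, fun T hT => ?_⟩
  have hT0 : 0 < T := by linarith
  set L := Real.log T with hL
  have hL2 : 2 ≤ L := by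
    rw [hL, Real.le_log_iff_exp_le hT0]
    have h1 : Real.exp 2 = Real.exp 1 * Real.exp 1 := by rw [← Real.exp_add]; norm_num
    have h2 := Real.exp_one_lt_d9
    have h3 := Real.exp_one_gt_d9
    rw [h1]
    nlinarith
  have hL0 : 0 < L := by linarith
  set S := Zf riemannZeta T (2 * T) with hS
  have hmem : ∀ s : ℂ, s ∈ S ↔ 0 < s.re ∧ s.re < 1 ∧ T < s.im ∧ s.im ≤ 2 * T ∧ riemannZeta s = 0 := by
    intro s
    rw [hS, mem_Zf good_zeta (by linarith : (1:ℝ) ≤ T)]
    exact Iff.rfl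
  set f : ℂ → ℝ := fun s => (mult riemannZeta s : ℝ) * Real.exp (1 / 2 * (|(zz s).im| * L)) with hf
  have hf0 : ∀ s, 0 ≤ f s := fun s => by rw [hf]; positivity
  have hzz : ∀ s : ℂ, (zz s).im = -(s.re - 1 / 2) := by
    intro s
    simp [zz]
  -- reflection
  have hrefl : ∑ s ∈ S.filter (fun s => s.re < 1 / 2), f s ≤ ∑ s ∈ S.filter (fun s => 1 / 2 ≤ s.re), f s := by
    have h1 : ∑ s ∈ S.filter (fun s => s.re < 1 / 2), f s =
        ∑ s ∈ (S.filter (fun s => s.re < 1 / 2)).image rfl', f s := by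
      rw [Finset.sum_image]
      · refine Finset.sum_congr rfl fun s hs => ?_
        rw [Finset.mem_filter, hmem] at hs
        rw [hf]
        simp only
        rw [rfl'_mult hs.1.1 hs.1.2.1 (by linarith [hs.1.2.2.1]), hzz, hzz, rfl'_re]
        congr 4
        rw [show -(1 - s.re - 1 / 2) = -(-(s.re - 1 / 2)) by ring, abs_neg (-(s.re - 1 / 2))]
      · intro a _ b _ hab
        rw [← rfl'_rfl' a, hab, rfl'_rfl']
    rw [h1]
    refine Finset.sum_le_sum_of_subset_of_nonneg ?_ fun s _ _ => hf0 s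
    intro s hs
    rw [Finset.mem_image] at hs
    obtain ⟨w, hw, rfl⟩ := hs
    rw [Finset.mem_filter, hmem] at hw
    rw [Finset.mem_filter, hmem]
    obtain ⟨⟨a1, a2, a3, a4, a5⟩, a6⟩ := hw
    refine ⟨⟨?_, ?_, ?_, ?_, ?_⟩, ?_⟩
    · rw [rfl'_re]; linarith
    · rw [rfl'_re]; linarith
    · rw [rfl'_im]; exact a3
    · rw [rfl'_im]; exact a4
    · exact rfl'_zero a1 a2 (by linarith) a5
    · rw [rfl'_re]; linarith
  have hsplit : ∑ s ∈ S, f s = ∑ s ∈ S.filter (fun s => s.re < 1 / 2), f s +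
      ∑ s ∈ S.filter (fun s => 1 / 2 ≤ s.re), f s := by
    rw [← Finset.sum_filter_add_sum_filter_not S (fun s => s.re < 1 / 2)]
    congr 2
    ext s
    simp
  -- layers
  set M := ⌊L / 2⌋₊ + 1 with hM
  set R := S.filter (fun s => 1 / 2 ≤ s.re) with hR
  have hlay : ∀ s ∈ R, f s ≤ ∑ k ∈ Finset.range M, Real.exp (1 / 2 * ((k:ℝ) + 1)) *
      (if 1 / 2 + (k:ℝ) / L ≤ s.re then (mult riemannZeta s : ℝ) else 0) := by
    intro s hs
    rw [hR, Finset.mem_filter, hmem] at hs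
    obtain ⟨⟨a1, a2, a3, a4, a5⟩, a6⟩ := hs
    set y := (s.re - 1 / 2) * L with hy
    have hy0 : 0 ≤ y := mul_nonneg (by linarith) hL0.le
    set k0 := ⌊y⌋₊ with hk0
    have hk1 : (k0 : ℝ) ≤ y := Nat.floor_le hy0
    have hk2 : y < k0 + 1 := Nat.lt_floor_add_one y
    have hkM : k0 ∈ Finset.range M := by
      rw [Finset.mem_range, hM, Nat.lt_succ_iff]
      refine Nat.floor_le_floor ?_
      rw [hy]
      nlinarith
    have habs : |(zz s).im| * L = y := by
      rw [hzz, abs_neg, abs_of_nonneg (by linarith)]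
    have hcond : 1 / 2 + (k0 : ℝ) / L ≤ s.re := by
      have : (k0 : ℝ) / L ≤ s.re - 1 / 2 := by rw [div_le_iff₀ hL0]; exact hk1
      linarith
    calc f s = (mult riemannZeta s : ℝ) * Real.exp (1 / 2 * y) := by rw [hf]; simp only; rw [habs]
      _ ≤ (mult riemannZeta s : ℝ) * Real.exp (1 / 2 * ((k0:ℝ) + 1)) := by gcongr
      _ = Real.exp (1 / 2 * ((k0:ℝ) + 1)) *
          (if 1 / 2 + (k0:ℝ) / L ≤ s.re then (mult riemannZeta s : ℝ) else 0) := by
            rw [if_pos hcond]; ring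
      _ ≤ _ := Finset.single_le_sum (f := fun k : ℕ => Real.exp (1 / 2 * ((k:ℝ) + 1)) *
          (if 1 / 2 + (k:ℝ) / L ≤ s.re then (mult riemannZeta s : ℝ) else 0)) (fun i _ => by
            have : (0:ℝ) ≤ (if 1 / 2 + (i:ℝ) / L ≤ s.re then (mult riemannZeta s : ℝ) else 0) := by
              split_ifs <;> positivity
            positivity) hkM
  have hsumR : ∑ s ∈ R, f s ≤ C * 4 * Real.exp (1 / 2) * (1 - q)⁻¹ * (T * L) := by
    refine (Finset.sum_le_sum hlay).trans ?_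
    rw [Finset.sum_comm]
    have hk : ∀ k ∈ Finset.range M, ∑ s ∈ R, Real.exp (1 / 2 * ((k:ℝ) + 1)) *
        (if 1 / 2 + (k:ℝ) / L ≤ s.re then (mult riemannZeta s : ℝ) else 0) ≤
        (C * 4 * Real.exp (1 / 2) * (T * L)) * q ^ k := by
      intro k hk
      rw [Finset.mem_range, hM, Nat.lt_succ_iff] at hk
      have hkL : (k : ℝ) ≤ L / 2 := by
        have : (k : ℝ) ≤ (⌊L / 2⌋₊ : ℝ) := by exact_mod_cast hk
        exact this.trans (Nat.floor_le (by positivity))
      rw [← Finset.mul_sum, ← Finset.sum_filter]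
      have hσ1 : (1:ℝ) / 2 ≤ 1 / 2 + (k:ℝ) / L := by
        have : 0 ≤ (k:ℝ) / L := by positivity
        linarith
      have hσ2 : 1 / 2 + (k:ℝ) / L ≤ 1 := by
        have : (k:ℝ) / L ≤ 1 / 2 := by rw [div_le_iff₀ hL0]; linarith
        linarith
      obtain ⟨hfin, hd⟩ := h (1 / 2 + (k:ℝ) / L) (2 * T) hσ1 hσ2 (by linarith)
      rw [finsum_mem_eq_finite_toFinset_sum _ hfin] at hd
      have hle : ∑ s ∈ R.filter (fun s => 1 / 2 + (k:ℝ) / L ≤ s.re), (mult riemannZeta s : ℝ) ≤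
          ∑ ρ ∈ hfin.toFinset, (analyticOrderNatAt riemannZeta ρ : ℝ) := by
        refine Finset.sum_le_sum_of_subset_of_nonneg ?_ fun s _ _ => Nat.cast_nonneg _
        intro s hs
        rw [Finset.mem_filter, hR, Finset.mem_filter, hmem] at hs
        rw [Set.Finite.mem_toFinset]
        obtain ⟨⟨⟨a1, a2, a3, a4, a5⟩, a6⟩, a7⟩ := hs
        exact ⟨a5, a7, by linarith, a4⟩
      have hpow : (2 * T) ^ (1 - 1 * (1 / 2 + (k:ℝ) / L - 1 / 2)) ≤ 2 * T * Real.exp (-(k:ℝ)) := by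
        have e1 : 1 - 1 * (1 / 2 + (k:ℝ) / L - 1 / 2) = 1 + -((k:ℝ) / L) := by ring
        rw [e1, Real.rpow_add (by positivity), Real.rpow_one]
        refine mul_le_mul_of_nonneg_left ?_ (by positivity)
        rw [Real.rpow_def_of_pos (by positivity), Real.exp_le_exp]
        have h2T : L ≤ Real.log (2 * T) := Real.log_le_log hT0 (by linarith)
        have h3 : 0 ≤ (k:ℝ) / L := by positivity
        have h4 : L * ((k:ℝ) / L) = k := by field_simp
        nlinarith
      have hlog2 : Real.log (2 * T) ≤ 2 * L := by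
        rw [Real.log_mul (by norm_num) hT0.ne']
        have := Real.log_two_lt_d9
        linarith
      have hlog0 : 0 ≤ Real.log (2 * T) := Real.log_nonneg (by linarith)
      calc Real.exp (1 / 2 * ((k:ℝ) + 1)) * ∑ s ∈ R.filter (fun s => 1 / 2 + (k:ℝ) / L ≤ s.re), (mult riemannZeta s : ℝ)
          ≤ Real.exp (1 / 2 * ((k:ℝ) + 1)) * (C * (2 * T * Real.exp (-(k:ℝ))) * (2 * L)) := by
            refine mul_le_mul_of_nonneg_left (hle.trans (hd.trans ?_)) (Real.exp_pos _).le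
            gcongr
        _ = (C * 4 * (T * L)) * (Real.exp (1 / 2 * ((k:ℝ) + 1)) * Real.exp (-(k:ℝ))) := by ring
        _ = (C * 4 * Real.exp (1 / 2) * (T * L)) * q ^ k := by
            rw [← Real.exp_add, hq, ← Real.exp_nat_mul]
            have : 1 / 2 * ((k:ℝ) + 1) + -(k:ℝ) = 1 / 2 + (k:ℝ) * -(1 / 2) := by ring
            rw [this, Real.exp_add]
            ring
    refine (Finset.sum_le_sum hk).trans ?_
    rw [← Finset.mul_sum]
    have hgeo : ∑ k ∈ Finset.range M, q ^ k ≤ (1 - q)⁻¹ := by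
      rw [← tsum_geometric_of_lt_one hq0.le hq1]
      exact (summable_geometric_of_lt_one hq0.le hq1).sum_le_tsum _ (fun i _ => by positivity)
    calc (C * 4 * Real.exp (1 / 2) * (T * L)) * ∑ k ∈ Finset.range M, q ^ k
        ≤ (C * 4 * Real.exp (1 / 2) * (T * L)) * (1 - q)⁻¹ := mul_le_mul_of_nonneg_left hgeo (by positivity)
      _ = _ := by ring
  calc ∑ s ∈ S, f s ≤ ∑ s ∈ R, f s + ∑ s ∈ R, f s := by rw [hsplit]; exact add_le_add_left hrefl _
    _ ≤ _ := by linarith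

end

end Pool.Agent.V8H36.SW
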