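import Pool.Agent.V8H36.SW.Law
import Pool.Agent.V8H36.SW.Dens

set_option autoImplicit false

/-! Assembly of the law of the derivative at the simple zeros (project SW of helper745 of an earlier team). -/

namespace Pool.Agent.V8H36.SW

open Filter Topology MeasureTheory Complex H370 Pool.Agent.Y745.SW

theorem a_ERS : P_ERS := by
  refine Pool.Agent.Y655.SW.ers_of ?_ Pool.Agent.Y627.SW.t_ER1
  exact dens_zeta

theorem a_BLK : P_BLK := blk good_zeta Pool.Agent.Y248.SW.t_KER Pool.Agent.Y833.SW.t_DI a_ERS Pool.Agent.Y655.SW.t_TRK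
  Pool.Agent.Y627.SW.t_MN Pool.Agent.Y240.SW.t_DF Pool.Agent.Y228.SW.t_EF
  (Pool.Agent.Y274.SW.t_SM Pool.Agent.Y840.SW.t_MVB Pool.Agent.Y228.SW.t_EF)

theorem a_IND : P_IND := Pool.Agent.Y275.SW.t_IND (Pool.Agent.Y41.SW.t_FM Pool.Agent.Y840.SW.t_MVB Pool.Agent.Y655.SW.t_MC)
  (Pool.Agent.Y498.SW.t_TI Pool.Agent.Y840.SW.t_MVB Pool.Agent.Y655.SW.t_MC) Pool.Agent.Y586.SW.t_GM

theorem a_DER : P_DER := Pool.Agent.Y141.SW.t_DER Pool.Agent.Y655.SW.t_HAR Pool.Agent.Y895.SW.t_BV Pool.Agent.Y895.SW.t_DX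

/-- the law of the derivative, lower half -/
theorem a_law {a b ε : ℝ} (hab : a < b) (hε : 0 < ε) : ∃ δ : ℝ, 0 < δ ∧ ∃ X0 : ℝ, ∀ X : ℝ, X0 ≤ X →
    ((2 - cMTinv) * Gm01 a b - ε) * (NN riemannZeta 0 X : ℝ) ≤ (PQn (Qs a b δ) 0 X : ℝ) :=
  law good_zeta a_BLK a_IND Pool.Agent.Y895.SW.t_BV a_DER hab hε

end Pool.Agent.V8H36.SW
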