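import Mathlib

set_option autoImplicit false

/-! Lower bounds for the numbers of points in intervals by a multiple of the normal law, uniformly in the interval. -/

namespace Pool.Agent.V8H36.SW

open Filter Topology MeasureTheory ProbabilityTheory

noncomputable section

lemma gauss_le_vol (S : Set ℝ) (hS : MeasurableSet S) : gaussianReal 0 1 S ≤ volume S := by
  rw [gaussianReal_of_var_ne_zero 0 one_ne_zero, withDensity_apply _ hS]
  calc ∫⁻ x in S, gaussianPDF 0 1 x ≤ ∫⁻ _x in S, 1 := by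
        refine lintegral_mono fun x => ?_
        unfold gaussianPDF
        rw [← ENNReal.ofReal_one]
        refine ENNReal.ofReal_le_ofReal ?_
        unfold gaussianPDFReal
        have h1 : (1:ℝ) ≤ Real.sqrt (2 * Real.pi * (1 : NNReal)) := by
          rw [Real.one_le_sqrt]
          have := Real.pi_gt_three
          simp only [NNReal.coe_one, mul_one]
          linarith
        have h2 : (Real.sqrt (2 * Real.pi * (1 : NNReal)))⁻¹ ≤ 1 := inv_le_one_of_one_le₀ h1
        have h3 : Real.exp (-(x - 0) ^ 2 / (2 * (1 : NNReal))) ≤ 1 := by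
          rw [Real.exp_le_one_iff]
          have : 0 ≤ (x - 0) ^ 2 := sq_nonneg _
          simp only [NNReal.coe_one, mul_one]
          linarith
        calc _ ≤ 1 * (1:ℝ) := mul_le_mul h2 h3 (Real.exp_pos _).le (by norm_num)
          _ = 1 := by norm_num
    _ = volume S := by simp

lemma gauss_cell (a h : ℝ) (hh : 0 ≤ h) : (gaussianReal 0 1).real (Set.Icc a (a + h)) ≤ h := by
  have h1 := gauss_le_vol (Set.Icc a (a + h)) measurableSet_Icc
  rw [Real.volume_Icc] at h1
  have h2 := ENNReal.toReal_mono (by simp) h1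
  rw [ENNReal.toReal_ofReal (by linarith)] at h2
  unfold Measure.real
  linarith

lemma gauss_tail {ε : ℝ} (hε : 0 < ε) : ∃ M : ℝ, 0 < M ∧ (gaussianReal 0 1).real (Set.Iic (-M)) ≤ ε ∧
    (gaussianReal 0 1).real (Set.Ici M) ≤ ε := by
  have e1 := (tendsto_cdf_atBot (gaussianReal 0 1)).eventually (eventually_le_nhds hε)
  have e2 := (tendsto_cdf_atTop (gaussianReal 0 1)).eventually (eventually_ge_nhds (show 1 - ε < (1:ℝ) by linarith))
  have e3 := tendsto_neg_atTop_atBot.eventually e1
  have e4 := (tendsto_atTop_add_const_right atTop (-1 : ℝ) tendsto_id).eventually e2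
  obtain ⟨M, ⟨a1, a2⟩, a3⟩ := ((e3.and e4).and (eventually_gt_atTop (0:ℝ))).exists
  rw [cdf_eq_real] at a1 a2
  refine ⟨M, a3, a1, ?_⟩
  have h1 : (gaussianReal 0 1).real (Set.Ici M) + (gaussianReal 0 1).real (Set.Iic (id M + -1)) ≤ 1 := by
    rw [← measureReal_union ?_ measurableSet_Iic]
    · exact measureReal_le_one
    · rw [Set.disjoint_left]
      intro x hx hx'
      simp only [Set.mem_Ici, Set.mem_Iic, id] at hx hx'
      linarith
  linarith

/-- uniformity in the interval -/
theorem uniform {f : ℝ → ℝ → ℝ → ℝ → ℝ} {N : ℝ → ℝ} {c : ℝ} (hc0 : 0 ≤ c) (hc1 : c ≤ 1) (hN : ∀ X, 0 ≤ N X)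
    (hf0 : ∀ δ a b X, 0 ≤ f δ a b X)
    (hmono : ∀ δ δ' a a' b b' X : ℝ, δ' ≤ δ → a' ≤ a → b ≤ b' → f δ a b X ≤ f δ' a' b' X)
    (hlaw : ∀ a b ε : ℝ, a < b → 0 < ε → ∃ δ : ℝ, 0 < δ ∧ ∃ X0 : ℝ, ∀ X : ℝ, X0 ≤ X →
      (c * (gaussianReal 0 1).real (Set.Ioo a b) - ε) * N X ≤ f δ a b X) {ε : ℝ} (hε : 0 < ε) :
    ∃ δ : ℝ, 0 < δ ∧ ∃ X0 : ℝ, ∀ X : ℝ, X0 ≤ X → ∀ a b : ℝ, a < b →
      (c * (gaussianReal 0 1).real (Set.Ioo a b) - ε) * N X ≤ f δ a b X := by
  classical
  obtain ⟨M, hM, hM1, hM2⟩ := gauss_tail (show 0 < ε / 8 by positivity)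
  set h : ℝ := ε / 8 with hh
  have hh0 : 0 < h := by positivity
  set p : ℕ → ℝ := fun i => -M + i * h with hp
  set n : ℕ := ⌈2 * M / h⌉₊ + 1 with hn
  -- finitely many intervals
  have hfin : ∀ S : Finset (ℕ × ℕ), ∃ δ : ℝ, 0 < δ ∧ ∃ X0 : ℝ, ∀ X : ℝ, X0 ≤ X → ∀ ij ∈ S, p ij.1 < p ij.2 →
      (c * (gaussianReal 0 1).real (Set.Ioo (p ij.1) (p ij.2)) - ε / 2) * N X ≤ f δ (p ij.1) (p ij.2) X := by
    intro S
    induction S using Finset.induction_on with
    | empty => exact ⟨1, one_pos, 0, fun X _ ij hij => absurd hij (Finset.notMem_empty _)⟩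
    | insert x S hx ih =>
      obtain ⟨δ, hδ, X0, h1⟩ := ih
      by_cases hlt : p x.1 < p x.2
      · obtain ⟨δ', hδ', X0', h2⟩ := hlaw _ _ (ε / 2) hlt (by positivity)
        refine ⟨min δ δ', lt_min hδ hδ', max X0 X0', fun X hX ij hij hl => ?_⟩
        rw [Finset.mem_insert] at hij
        rcases hij with rfl | hij
        · exact (h2 X ((le_max_right _ _).trans hX)).trans (hmono _ _ _ _ _ _ _ (min_le_right _ _) le_rfl le_rfl)
        · exact (h1 X ((le_max_left _ _).trans hX) ij hij hl).trans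
            (hmono _ _ _ _ _ _ _ (min_le_left _ _) le_rfl le_rfl)
      · refine ⟨δ, hδ, X0, fun X hX ij hij hl => ?_⟩
        rw [Finset.mem_insert] at hij
        rcases hij with rfl | hij
        · exact absurd hl hlt
        · exact h1 X hX ij hij hl
  obtain ⟨δ, hδ, X0, hX0⟩ := hfin (Finset.range n ×ˢ Finset.range n)
  refine ⟨δ, hδ, X0, fun X hX a b hab => ?_⟩
  have hX1 := hX0 X hX
  have hNX := hN X
  set A := max a (-M) with hA
  set B := min b M with hB
  have hsub0 : Set.Ioo a b ⊆ Set.Iic (-M) ∪ Set.Ici M ∪ Set.Ioo A B := by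
    intro x hx
    simp only [Set.mem_union, Set.mem_Iic, Set.mem_Ici, Set.mem_Ioo]
    by_cases h1 : x ≤ -M
    · exact Or.inl (Or.inl h1)
    by_cases h2 : M ≤ x
    · exact Or.inl (Or.inr h2)
    push Not at h1 h2
    exact Or.inr ⟨max_lt hx.1 h1, lt_min hx.2 h2⟩
  have hg0 : (gaussianReal 0 1).real (Set.Ioo a b) ≤ ε / 4 + (gaussianReal 0 1).real (Set.Ioo A B) := by
    have h1 := (measureReal_mono hsub0 (μ := gaussianReal 0 1)).trans (measureReal_union_le _ _)
    have h2 := measureReal_union_le (μ := gaussianReal 0 1) (Set.Iic (-M)) (Set.Ici M)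
    linarith
  rcases le_or_gt B A with hBA | hAB
  · have h1 : Set.Ioo A B = ∅ := Set.Ioo_eq_empty (not_lt.2 hBA)
    rw [h1, measureReal_empty, add_zero] at hg0
    refine le_trans ?_ (hf0 _ _ _ _)
    have h2 : c * (gaussianReal 0 1).real (Set.Ioo a b) - ε ≤ 0 := by
      have := mul_le_mul hc1 hg0 measureReal_nonneg (by norm_num)
      linarith
    exact mul_nonpos_of_nonpos_of_nonneg h2 hNX
  · have hAM : -M ≤ A := le_max_right _ _
    have hBM : B ≤ M := min_le_right _ _
    set i := ⌈(A + M) / h⌉₊ with hi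
    set j := ⌊(B + M) / h⌋₊ with hj
    have hi1 : (A + M) / h ≤ i := Nat.le_ceil _
    have hi2 : (i : ℝ) < (A + M) / h + 1 := Nat.ceil_lt_add_one (div_nonneg (by linarith) hh0.le)
    have hj1 : (j : ℝ) ≤ (B + M) / h := Nat.floor_le (div_nonneg (by linarith) hh0.le)
    have hj2 : (B + M) / h < j + 1 := Nat.lt_floor_add_one _
    have hpi1 : A ≤ p i := by
      rw [div_le_iff₀ hh0] at hi1
      simp only [hp]; linarith
    have hpi2 : p i < A + h := by
      have : (i : ℝ) * h < ((A + M) / h + 1) * h := mul_lt_mul_of_pos_right hi2 hh0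
      have e : ((A + M) / h + 1) * h = A + M + h := by field_simp
      simp only [hp]; linarith
    have hpj1 : p j ≤ B := by
      rw [le_div_iff₀ hh0] at hj1
      simp only [hp]; linarith
    have hpj2 : B - h < p j := by
      rw [div_lt_iff₀ hh0] at hj2
      simp only [hp]; linarith
    have hsub : Set.Ioo A B ⊆ Set.Icc A (A + h) ∪ Set.Icc (B - h) (B - h + h) ∪ Set.Ioo (p i) (p j) := by
      intro x hx
      simp only [Set.mem_union, Set.mem_Icc, Set.mem_Ioo]
      by_cases h1 : x ≤ p i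
      · exact Or.inl (Or.inl ⟨hx.1.le, by linarith⟩)
      by_cases h2 : p j ≤ x
      · exact Or.inl (Or.inr ⟨by linarith, by linarith [hx.2]⟩)
      push Not at h1 h2
      exact Or.inr ⟨h1, h2⟩
    have hg1 : (gaussianReal 0 1).real (Set.Ioo A B) ≤ 2 * h + (gaussianReal 0 1).real (Set.Ioo (p i) (p j)) := by
      have h1 := (measureReal_mono hsub (μ := gaussianReal 0 1)).trans (measureReal_union_le _ _)
      have h2 := measureReal_union_le (μ := gaussianReal 0 1) (Set.Icc A (A + h)) (Set.Icc (B - h) (B - h + h))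
      have h3 := gauss_cell A h hh0.le
      have h4 := gauss_cell (B - h) h hh0.le
      linarith
    have hg : (gaussianReal 0 1).real (Set.Ioo a b) ≤ ε / 2 + (gaussianReal 0 1).real (Set.Ioo (p i) (p j)) := by
      rw [hh] at hg1; linarith
    by_cases hlt : p i < p j
    · have hin : i ∈ Finset.range n := by
        rw [Finset.mem_range, hn, Nat.lt_succ_iff]
        refine Nat.ceil_le_ceil ?_
        gcongr
        linarith
      have hjn : j ∈ Finset.range n := by
        rw [Finset.mem_range, hn, Nat.lt_succ_iff]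
        refine (Nat.floor_le_ceil _).trans (Nat.ceil_le_ceil ?_)
        gcongr
        linarith
      have hk := hX1 (i, j) (Finset.mem_product.2 ⟨hin, hjn⟩) hlt
      have h1 : A ≤ p i := hpi1
      have ha : a ≤ p i := (le_max_left _ _).trans hpi1
      have hb : p j ≤ b := hpj1.trans (min_le_left _ _)
      refine le_trans ?_ (hk.trans (hmono _ _ _ _ _ _ _ le_rfl ha hb))
      refine mul_le_mul_of_nonneg_right ?_ hNX
      have h2 := mul_le_mul_of_nonneg_left hg hc0
      have h3 : c * (ε / 2) ≤ ε / 2 := by nlinarith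
      simp only at h2 ⊢
      linarith
    · have h1 : Set.Ioo (p i) (p j) = ∅ := Set.Ioo_eq_empty hlt
      rw [h1, measureReal_empty, add_zero] at hg
      refine le_trans ?_ (hf0 _ _ _ _)
      have h2 : c * (gaussianReal 0 1).real (Set.Ioo a b) - ε ≤ 0 := by
        have := mul_le_mul hc1 hg measureReal_nonneg (by norm_num)
        linarith
      exact mul_nonpos_of_nonpos_of_nonneg h2 hNX

end

end Pool.Agent.V8H36.SW
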