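import Pool.Agent.Y745.SW.Blk8
import Pool.Agent.Y745.SW.Blk6
import Pool.Agent.Y248.SW.KER
import Pool.Agent.Y627.SW.ER1
import Pool.Agent.Y627.SW.MN
import Pool.Agent.Y840.SW.MVB
import Pool.Agent.Y240.SW.DF
import Pool.Agent.Y655.SW.MC
import Pool.Agent.Y655.SW.Har
import Pool.Agent.Y655.SW.Trk
import Pool.Agent.Y655.SW.Ers0
import Pool.Agent.Y41.SW.FM
import Pool.Agent.Y498.SW.TI
import Pool.Agent.Y586.SW.GM
import Pool.Agent.Y895.SW.BVDX
import Pool.Agent.Y228.SW.EF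
import Pool.Agent.Y274.SW.SM
import Pool.Agent.Y141.SW.DerMain
import Pool.Agent.Y833.SW.Di
import Pool.Agent.Y275.SW.Ind
import Pool.Agent.Y24.F2
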